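import Pool.Agent.Lib.MP_37af32_pr.Main

set_option autoImplicit false

open MeasureTheory Pool.Agent.Lib.MP_37af32_pr

namespace Pool.Agent.Results.MP_37af32_pr.Main

/-- In every dimension `d ≥ 1` there is a probabilistic cellular automaton on a three-letter
alphabet that is ergodic and uniformly ergodic but not exponentially ergodic, not even with
constants depending on the initial measure. -/
theorem result (d : ℕ) (hd : 1 ≤ d) :
    ∃ (N : Finset (Fin d → ℤ)) (f : (N → Fin 3) → PMF (Fin 3))
      (π : ProbabilityMeasure (Config d 3)),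
      ErgodicTo (Phi N f) π ∧ UniformlyErgodic (Phi N f) π ∧
        ¬ ExpConv (Phi N f) π ∧ ¬ WeakExpConv (Phi N f) π :=
  ⟨nb d, rule d, pm (fun _ => 0), ergodic hd, unif hd, not_exp' hd, not_weakExp hd⟩

end Pool.Agent.Results.MP_37af32_pr.Main
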